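import Pool.Agent.Helper95.Riesz.SDefs

/-!
# Plancherel for a Schwartz window against a difference of finite measures (job PLANCH)
-/

set_option autoImplicit false
open MeasureTheory Set Filter Topology
open scoped ENNReal NNReal FourierTransform SchwartzMap ComplexConjugate

namespace Helper23.Riesz

section
variable {V : Type*} [NormedAddCommGroup V] [InnerProductSpace ℝ V] [FiniteDimensional ℝ V]
  [MeasurableSpace V] [BorelSpace V]

/-- the character of `chi` -/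
noncomputable def ech (x ξ : V) : ℂ :=
  Complex.exp (((-2 * Real.pi * inner ℝ x ξ : ℝ) : ℂ) * Complex.I)

omit [FiniteDimensional ℝ V] [MeasurableSpace V] [BorelSpace V] in
theorem norm_ech (x ξ : V) : ‖ech x ξ‖ = 1 := by
  unfold ech
  exact Complex.norm_exp_ofReal_mul_I _

omit [FiniteDimensional ℝ V] [MeasurableSpace V] [BorelSpace V] in
theorem continuous_ech : Continuous fun p : V × V => ech p.1 p.2 := by
  unfold ech
  fun_prop

omit [FiniteDimensional ℝ V] [MeasurableSpace V] [BorelSpace V] in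
theorem ech_neg (x ξ : V) : ech x (-ξ) = conj (ech x ξ) := by
  unfold ech
  rw [← Complex.exp_conj, inner_neg_right]
  congr 1
  rw [map_mul, Complex.conj_ofReal, Complex.conj_I]
  push_cast
  ring

/-- the translated reflection `z ↦ f (x - z)` as a Schwartz function -/
noncomputable def tref (f : 𝓢(V, ℂ)) (x : V) : 𝓢(V, ℂ) :=
  SchwartzMap.compSubConstCLM ℂ x
    (SchwartzMap.compCLMOfContinuousLinearEquiv ℂ (ContinuousLinearEquiv.neg ℝ (M := V)) f)

omit [FiniteDimensional ℝ V] [MeasurableSpace V] [BorelSpace V] in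
theorem tref_apply (f : 𝓢(V, ℂ)) (x z : V) : tref f x z = f (x - z) := by
  simp [tref]

theorem fourier_tref (f : 𝓢(V, ℂ)) (x η : V) : 𝓕 (tref f x) η = ech x η * 𝓕 f (-η) := by
  rw [SchwartzMap.fourier_coe, SchwartzMap.fourier_coe, Real.fourier_eq', Real.fourier_eq']
  rw [← integral_const_mul]
  rw [← integral_sub_left_eq_self _ volume x]
  refine integral_congr_ae (Eventually.of_forall fun z => ?_)
  simp only [tref_apply, smul_eq_mul, ech]
  rw [← mul_assoc, ← Complex.exp_add]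
  congr 2
  · rw [← add_mul]
    congr 1
    push_cast
    simp [inner_sub_left, inner_neg_right]
    ring
  · abel

theorem pair_eq (f : 𝓢(V, ℂ)) (x y : V) :
    ∫ z, conj (f (x - z)) * f (y - z) =
      ∫ η, ((‖𝓕 f η‖ ^ 2 : ℝ) : ℂ) * (ech x η * conj (ech y η)) := by
  have h := SchwartzMap.integral_inner_fourier_fourier (tref f x) (tref f y)
  have h1 : ∫ z, inner ℂ (tref f x z) (tref f y z) = ∫ z, conj (f (x - z)) * f (y - z) := by
    refine integral_congr_ae (Eventually.of_forall fun z => ?_)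
    simp only [tref_apply, RCLike.inner_apply]
    ring
  have h2 : ∫ η, inner ℂ (𝓕 (tref f x) η) (𝓕 (tref f y) η) =
      ∫ η, ((‖𝓕 f η‖ ^ 2 : ℝ) : ℂ) * (ech x η * conj (ech y η)) := by
    rw [← integral_neg_eq_self]
    refine integral_congr_ae (Eventually.of_forall fun η => ?_)
    simp only [fourier_tref, RCLike.inner_apply, neg_neg, ech_neg, map_mul, Complex.conj_conj]
    push_cast
    rw [← Complex.mul_conj' (𝓕 f η)]
    ring
  rw [← h1, ← h2, h]

theorem integrable_sub_left (f : 𝓢(V, ℂ)) (x : V) : Integrable fun z => f (x - z) := by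
  have h := (tref f x).integrable (μ := (volume : Measure V))
  refine h.congr (Eventually.of_forall fun z => ?_)
  simp only [tref_apply]

theorem integral_norm_sub_left (f : 𝓢(V, ℂ)) (x : V) :
    ∫ z, ‖f (x - z)‖ = ∫ z, ‖f z‖ :=
  integral_sub_left_eq_self (fun z => ‖f z‖) volume x

theorem pair_integrable (f : 𝓢(V, ℂ)) (μ ν : Measure V) [IsFiniteMeasure μ] [IsFiniteMeasure ν] :
    Integrable (fun p : (V × V) × V => conj (f (p.1.1 - p.2)) * f (p.1.2 - p.2))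
      ((μ.prod ν).prod volume) := by
  obtain ⟨C, hC⟩ : ∃ C : ℝ, ∀ x, ‖f x‖ ≤ C := ⟨_, fun x => SchwartzMap.norm_le_seminorm ℝ f x⟩
  have hcont : Continuous fun p : (V × V) × V => conj (f (p.1.1 - p.2)) * f (p.1.2 - p.2) := by
    have := f.continuous
    fun_prop
  rw [integrable_prod_iff hcont.aestronglyMeasurable]
  refine ⟨Eventually.of_forall fun p => ?_, ?_⟩
  · refine Integrable.mono' ((integrable_sub_left f p.1).norm.mul_const C)
      (Continuous.aestronglyMeasurable (by have := f.continuous; fun_prop))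
      (Eventually.of_forall fun z => ?_)
    rw [norm_mul, RCLike.norm_conj]
    exact mul_le_mul_of_nonneg_left (hC _) (norm_nonneg _)
  · refine Integrable.mono' (g := fun _ => (∫ z, ‖f z‖) * C) (integrable_const _)
      (hcont.aestronglyMeasurable.norm.integral_prod_right') (Eventually.of_forall fun p => ?_)
    rw [Real.norm_of_nonneg (integral_nonneg fun _ => norm_nonneg _)]
    calc ∫ z, ‖conj (f (p.1 - z)) * f (p.2 - z)‖ ≤ ∫ z, ‖f (p.1 - z)‖ * C := by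
          refine integral_mono_of_nonneg (Eventually.of_forall fun _ => norm_nonneg _)
            ((integrable_sub_left f p.1).norm.mul_const C) (Eventually.of_forall fun z => ?_)
          simp only [norm_mul, RCLike.norm_conj]
          exact mul_le_mul_of_nonneg_left (hC _) (norm_nonneg _)
      _ = (∫ z, ‖f z‖) * C := by
          rw [integral_mul_const, integral_norm_sub_left]

theorem pair_integrable' (f : 𝓢(V, ℂ)) (μ ν : Measure V) [IsFiniteMeasure μ] [IsFiniteMeasure ν] :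
    Integrable (fun p : (V × V) × V =>
      ((‖𝓕 f p.2‖ ^ 2 : ℝ) : ℂ) * (ech p.1.1 p.2 * conj (ech p.1.2 p.2)))
      ((μ.prod ν).prod volume) := by
  have hF : Integrable fun η : V => ‖𝓕 f η‖ ^ 2 := by
    have h := (SchwartzMap.memLp (𝓕 f) 2 (μ := (volume : Measure V)))
    exact h.integrable_norm_pow (by norm_num)
  have hcont : Continuous fun p : (V × V) × V =>
      ((‖𝓕 f p.2‖ ^ 2 : ℝ) : ℂ) * (ech p.1.1 p.2 * conj (ech p.1.2 p.2)) := by
    have h1 := (𝓕 f).continuous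
    have h2 := continuous_ech (V := V)
    have h3 : Continuous fun p : (V × V) × V => ech p.1.1 p.2 :=
      h2.comp ((continuous_fst.comp continuous_fst).prodMk continuous_snd)
    have h4 : Continuous fun p : (V × V) × V => ech p.1.2 p.2 :=
      h2.comp ((continuous_snd.comp continuous_fst).prodMk continuous_snd)
    fun_prop
  have hI : Integrable (fun p : (V × V) × V => (1 : ℝ) * ‖𝓕 f p.2‖ ^ 2)
      ((μ.prod ν).prod volume) := (integrable_const (1:ℝ)).mul_prod hF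
  refine hI.mono' hcont.aestronglyMeasurable (Eventually.of_forall fun p => ?_)
  rw [norm_mul, norm_mul, RCLike.norm_conj, norm_ech, norm_ech, Complex.norm_real,
    Real.norm_of_nonneg (by positivity)]
  simp

omit [NormedAddCommGroup V] [InnerProductSpace ℝ V] [FiniteDimensional ℝ V] [BorelSpace V] in
theorem integral_four {m : Measure V} {f₁ f₂ f₃ f₄ : V → ℂ} (h₁ : Integrable f₁ m)
    (h₂ : Integrable f₂ m) (h₃ : Integrable f₃ m) (h₄ : Integrable f₄ m) :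
    ∫ z, (f₁ z - f₂ z - f₃ z + f₄ z) ∂m =
      (∫ z, f₁ z ∂m) - (∫ z, f₂ z ∂m) - (∫ z, f₃ z ∂m) + (∫ z, f₄ z ∂m) := by
  have e1 : ∫ z, (f₁ z - f₂ z - f₃ z + f₄ z) ∂m =
      (∫ z, (f₁ z - f₂ z - f₃ z) ∂m) + (∫ z, f₄ z ∂m) := integral_add ((h₁.sub h₂).sub h₃) h₄
  have e2 : ∫ z, (f₁ z - f₂ z - f₃ z) ∂m =
      (∫ z, (f₁ z - f₂ z) ∂m) - (∫ z, f₃ z ∂m) := integral_sub (h₁.sub h₂) h₃
  have e3 : ∫ z, (f₁ z - f₂ z) ∂m =
      (∫ z, f₁ z ∂m) - (∫ z, f₂ z ∂m) := integral_sub h₁ h₂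
  rw [e1, e2, e3]

/-- the sesquilinear Plancherel identity -/
theorem planch_pair (f : 𝓢(V, ℂ)) (μ ν : Measure V) [IsFiniteMeasure μ] [IsFiniteMeasure ν] :
    Integrable (fun z : V => conj (∫ x, f (x - z) ∂μ) * ∫ x, f (x - z) ∂ν) ∧
    Integrable (fun η : V => ((‖𝓕 f η‖ ^ 2 : ℝ) : ℂ) * (chi μ η * conj (chi ν η))) ∧
    ∫ z : V, conj (∫ x, f (x - z) ∂μ) * ∫ x, f (x - z) ∂ν =
      ∫ η : V, ((‖𝓕 f η‖ ^ 2 : ℝ) : ℂ) * (chi μ η * conj (chi ν η)) := by
  have e1 : ∀ z : V, ∫ p : V × V, conj (f (p.1 - z)) * f (p.2 - z) ∂(μ.prod ν) =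
      conj (∫ x, f (x - z) ∂μ) * ∫ x, f (x - z) ∂ν := by
    intro z
    rw [integral_prod_mul (fun x => conj (f (x - z))) (fun y => f (y - z)), integral_conj]
  have e2 : ∀ η : V, ∫ p : V × V, ((‖𝓕 f η‖ ^ 2 : ℝ) : ℂ) * (ech p.1 η * conj (ech p.2 η))
      ∂(μ.prod ν) = ((‖𝓕 f η‖ ^ 2 : ℝ) : ℂ) * (chi μ η * conj (chi ν η)) := by
    intro η
    rw [integral_const_mul, integral_prod_mul (fun x => ech x η) (fun y => conj (ech y η)),
      integral_conj]
    rfl
  have i1 := pair_integrable f μ ν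
  have i2 := pair_integrable' f μ ν
  refine ⟨?_, ?_, ?_⟩
  · exact (i1.integral_prod_right).congr (Eventually.of_forall fun z => e1 z)
  · exact (i2.integral_prod_right).congr (Eventually.of_forall fun z => e2 z)
  · calc ∫ z : V, conj (∫ x, f (x - z) ∂μ) * ∫ x, f (x - z) ∂ν
        = ∫ z : V, ∫ p : V × V, conj (f (p.1 - z)) * f (p.2 - z) ∂(μ.prod ν) := by
          simp_rw [e1]
      _ = ∫ p : V × V, (∫ z : V, conj (f (p.1 - z)) * f (p.2 - z)) ∂(μ.prod ν) :=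
          (integral_integral_swap (f := fun (p : V × V) (z : V) =>
            conj (f (p.1 - z)) * f (p.2 - z)) i1).symm
      _ = ∫ p : V × V, (∫ η : V, ((‖𝓕 f η‖ ^ 2 : ℝ) : ℂ) * (ech p.1 η * conj (ech p.2 η)))
            ∂(μ.prod ν) := by simp_rw [pair_eq]
      _ = ∫ η : V, ∫ p : V × V, ((‖𝓕 f η‖ ^ 2 : ℝ) : ℂ) * (ech p.1 η * conj (ech p.2 η))
            ∂(μ.prod ν) := integral_integral_swap (f := fun (p : V × V) (η : V) =>
            ((‖𝓕 f η‖ ^ 2 : ℝ) : ℂ) * (ech p.1 η * conj (ech p.2 η))) i2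
      _ = _ := by simp_rw [e2]

theorem planch (f : 𝓢(V, ℂ)) (μ ν : Measure V) [IsFiniteMeasure μ] [IsFiniteMeasure ν] :
    ∫⁻ z : V, ENNReal.ofReal (‖∫ x, f (x - z) ∂μ - ∫ x, f (x - z) ∂ν‖ ^ 2) =
      ∫⁻ η : V, ENNReal.ofReal (‖𝓕 f η‖ ^ 2) * ENNReal.ofReal (‖chi μ η - chi ν η‖ ^ 2) := by
  obtain ⟨a1, b1, c1⟩ := planch_pair f μ μ
  obtain ⟨a2, b2, c2⟩ := planch_pair f μ ν
  obtain ⟨a3, b3, c3⟩ := planch_pair f ν μ
  obtain ⟨a4, b4, c4⟩ := planch_pair f ν ν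
  have hA : ∀ z : V, ((‖∫ x, f (x - z) ∂μ - ∫ x, f (x - z) ∂ν‖ ^ 2 : ℝ) : ℂ) =
      conj (∫ x, f (x - z) ∂μ) * (∫ x, f (x - z) ∂μ) -
      conj (∫ x, f (x - z) ∂μ) * (∫ x, f (x - z) ∂ν) -
      conj (∫ x, f (x - z) ∂ν) * (∫ x, f (x - z) ∂μ) +
      conj (∫ x, f (x - z) ∂ν) * (∫ x, f (x - z) ∂ν) := by
    intro z
    push_cast
    rw [← Complex.conj_mul']
    rw [map_sub]
    ring
  have hB : ∀ η : V, ((‖𝓕 f η‖ ^ 2 * ‖chi μ η - chi ν η‖ ^ 2 : ℝ) : ℂ) =
      ((‖𝓕 f η‖ ^ 2 : ℝ) : ℂ) * (chi μ η * conj (chi μ η)) -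
      ((‖𝓕 f η‖ ^ 2 : ℝ) : ℂ) * (chi μ η * conj (chi ν η)) -
      ((‖𝓕 f η‖ ^ 2 : ℝ) : ℂ) * (chi ν η * conj (chi μ η)) +
      ((‖𝓕 f η‖ ^ 2 : ℝ) : ℂ) * (chi ν η * conj (chi ν η)) := by
    intro η
    push_cast
    rw [← Complex.mul_conj' (chi μ η - chi ν η), map_sub]
    ring
  have iA : Integrable fun z : V => ‖∫ x, f (x - z) ∂μ - ∫ x, f (x - z) ∂ν‖ ^ 2 := by
    have := (((a1.sub a2).sub a3).add a4).congr (Eventually.of_forall fun z => (hA z).symm)
    exact this.re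
  have iB : Integrable fun η : V => ‖𝓕 f η‖ ^ 2 * ‖chi μ η - chi ν η‖ ^ 2 := by
    have := (((b1.sub b2).sub b3).add b4).congr (Eventually.of_forall fun z => (hB z).symm)
    exact this.re
  have key : ∫ z : V, ‖∫ x, f (x - z) ∂μ - ∫ x, f (x - z) ∂ν‖ ^ 2 =
      ∫ η : V, ‖𝓕 f η‖ ^ 2 * ‖chi μ η - chi ν η‖ ^ 2 := by
    apply Complex.ofReal_injective
    rw [← integral_complex_ofReal, ← integral_complex_ofReal]
    have e1 : ∫ z : V, ((‖∫ x, f (x - z) ∂μ - ∫ x, f (x - z) ∂ν‖ ^ 2 : ℝ) : ℂ) =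
      (∫ z : V, conj (∫ x, f (x - z) ∂μ) * (∫ x, f (x - z) ∂μ)) -
      (∫ z : V, conj (∫ x, f (x - z) ∂μ) * (∫ x, f (x - z) ∂ν)) -
      (∫ z : V, conj (∫ x, f (x - z) ∂ν) * (∫ x, f (x - z) ∂μ)) +
      (∫ z : V, conj (∫ x, f (x - z) ∂ν) * (∫ x, f (x - z) ∂ν)) := by
      rw [← integral_four a1 a2 a3 a4]
      exact integral_congr_ae (Eventually.of_forall fun z => hA z)
    have e2 : ∫ η : V, ((‖𝓕 f η‖ ^ 2 * ‖chi μ η - chi ν η‖ ^ 2 : ℝ) : ℂ) =
      (∫ η : V, ((‖𝓕 f η‖ ^ 2 : ℝ) : ℂ) * (chi μ η * conj (chi μ η))) -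
      (∫ η : V, ((‖𝓕 f η‖ ^ 2 : ℝ) : ℂ) * (chi μ η * conj (chi ν η))) -
      (∫ η : V, ((‖𝓕 f η‖ ^ 2 : ℝ) : ℂ) * (chi ν η * conj (chi μ η))) +
      (∫ η : V, ((‖𝓕 f η‖ ^ 2 : ℝ) : ℂ) * (chi ν η * conj (chi ν η))) := by
      rw [← integral_four b1 b2 b3 b4]
      exact integral_congr_ae (Eventually.of_forall fun z => hB z)
    refine e1.trans (Eq.trans ?_ e2.symm)
    rw [c1, c2, c3, c4]
  rw [← ofReal_integral_eq_lintegral_ofReal iA (Eventually.of_forall fun _ => by positivity),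
    key, ofReal_integral_eq_lintegral_ofReal iB (Eventually.of_forall fun _ => by positivity)]
  refine lintegral_congr fun η => ?_
  exact ENNReal.ofReal_mul (by positivity)

end

end Helper23.Riesz
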